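import Mathlib
import Pool.Agent.R701.IntVal

/-!
# `Int_K(A, A')` is the integral closure of `Int_K(A)`

`D` is an arbitrary integrally closed domain with fraction field `K`, `B` is a `K`-algebra
(associative, with `1`, not necessarily commutative) and `A` is a `D`-subalgebra of `B` which is
finitely generated as a `D`-module and spans `B` over `K`.  These are exactly the pairs
`A ⊆ B = A ⊗_D K` with `A` a torsion-free `D`-algebra that is finitely generated as a `D`-module.
The definitions used in the statement (`IntK` and `IntKPrime`) are in `Pool.Agent.R701.IntVal`: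
`IntK D K A = {f ∈ K[X] : f(a) ∈ A for all a ∈ A}` and
`IntKPrime D K A = {f ∈ K[X] : f(a) is integral over D for all a ∈ A}`.
-/

open Polynomial Pool.Agent.R701.IntVal

namespace Pool.Agent.Results.MP_457b0e_al.IntegralClosure

universe u v w

/-- For every integrally closed domain `D` with fraction field `K` and every torsion-free
module-finite `D`-algebra `A`, with `B = A ⊗_D K`, the ring `Int_K(A, A')` is the integral closure
of `Int_K(A)` in the field `K(X)`: an element `x` of `K(X)` is integral over `Int_K(A)` if and only
if it is (the image of) a polynomial in `Int_K(A, A')`. -/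
theorem result (D : Type u) [CommRing D] [IsDomain D] [IsIntegrallyClosed D]
    (K : Type v) [Field K] [Algebra D K] [IsFractionRing D K]
    (B : Type w) [Ring B] [Nontrivial B] [Algebra K B] [Algebra D B] [IsScalarTower D K B]
    (A : Subalgebra D B) (hfg : (Subalgebra.toSubmodule A).FG)
    (hspan : Submodule.span K (A : Set B) = ⊤) (x : RatFunc K) :
    IsIntegral (IntK D K A) x ↔
      ∃ f ∈ IntKPrime D K A, algebraMap K[X] (RatFunc K) f = x := by
  -- `B` is finite-dimensional
  have hfin : FiniteDimensional K B := by
    obtain ⟨S, hS⟩ := hfg
    refine ⟨⟨S, ?_⟩⟩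
    rw [eq_top_iff, ← hspan]
    apply Submodule.span_le.mpr
    intro a ha
    have h1 : a ∈ Submodule.span D (S : Set B) := by rw [hS]; exact ha
    exact Submodule.span_subset_span D K (S : Set B) h1
  -- the elements of `A` are integral
  have hA : ∀ a ∈ A, IsIntegral D a := by
    intro a ha
    have : Module.Finite D A := Module.Finite.iff_fg.mpr hfg
    have h1 : IsIntegral D (⟨a, ha⟩ : A) := Algebra.IsIntegral.isIntegral _
    exact (isIntegral_algHom_iff A.val Subtype.val_injective).mpr h1
  exact integral_closure A hA x

end Pool.Agent.Results.MP_457b0e_al.IntegralClosure
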